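import Pool.Agent.V7H10.BG
import Pool.Agent.V7H10.Sys2

/-!
# The exact local structure of the `m` for which `m ^ 2 + 1` and `m ^ 2 + 3` are almost primes

`S_y` is the set of the `m` such that neither `m ^ 2 + 1` nor `m ^ 2 + 3` has a prime factor `≤ y`. For a finite
set `H` of shifts, `0 ∈ H`, let `V_H` be the sieve density of the `m` with `m + H ⊆ S_y`, and `V = V_{0}`. In ALL
intervals `(Z, Z + Y]` with `Y ≥ y ^ s` and for ALL sets `H` with at most `K` elements and all `L ≥ max H` with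
`L V ≤ x₀`, the number of the `m` in the interval for which the elements of `S_y` in `[m, m + L]` are exactly the
`m + h`, `h ∈ H`, is `Y V_H exp (- L V)`, up to the factor `1 ± ε`. The sets `H` may be arbitrarily spread out: their
elements go up to a constant times the mean distance `1 / V` of two elements of `S_y`.
-/

set_option autoImplicit false

open Finset

namespace Pool.Agent.Results.MP_2dba45_nt.ExactBlocksH10

/-- `p` divides `m ^ 2 + 1` or `m ^ 2 + 3` -/
def Divides (p m : ℕ) : Prop := p ∣ m ^ 2 + 1 ∨ p ∣ m ^ 2 + 3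

/-- Neither `m ^ 2 + 1` nor `m ^ 2 + 3` has a prime factor `≤ y`. -/
def Rough (y m : ℕ) : Prop := ∀ p : ℕ, p.Prime → p ≤ y → ¬ Divides p m

open Classical in
/-- the number of the residues `m` modulo `p` for which `p` divides one of the numbers `(m + h) ^ 2 + 1`,
`(m + h) ^ 2 + 3`, `h ∈ H` -/
noncomputable def om (H : Finset ℕ) (p : ℕ) : ℕ :=
  ((range p).filter (fun m => ∃ h ∈ H, Divides p (m + h))).card

/-- the density: the product of `1 - om(p) / p` over the primes `p ≤ y` -/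
noncomputable def V (H : Finset ℕ) (y : ℕ) : ℝ :=
  ∏ p ∈ (Icc 1 y).filter Nat.Prime, (1 - (om H p : ℝ) / p)

/-- the number of the `m` in `(Z, Z + Y]` for which the elements of `Rough y` in `[m, m + L]` are exactly the
integers `m + h` with `h ∈ H` -/
noncomputable def blocks (H : Finset ℕ) (L y Z Y : ℕ) : ℕ :=
  Set.ncard {m : ℕ | Z < m ∧ m ≤ Z + Y ∧ ∀ h ≤ L, (Rough y (m + h) ↔ h ∈ H)}

/-- **The exact local structure.** -/
theorem result :
    -- the `m` with prime values are elements of `Rough y`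
    (∀ y m : ℕ, (m ^ 2 + 1).Prime → (m ^ 2 + 3).Prime → y < m ^ 2 + 1 → Rough y m) ∧
    -- the elements of `Rough y` have almost prime values
    (∀ y t m : ℕ, m ^ 2 + 3 ≤ y ^ t → Rough y m →
      (m ^ 2 + 1).primeFactorsList.length ≤ t ∧ (m ^ 2 + 3).primeFactorsList.length ≤ t) ∧
    -- the exact blocks, in all intervals
    (∀ (K : ℕ) (x₀ ε : ℝ), 0 < ε → ∃ s y₀ : ℕ, ∀ y : ℕ, y₀ ≤ y → ∀ Z Y : ℕ, y ^ s ≤ Y →
      ∀ H : Finset ℕ, H.card ≤ K → 0 ∈ H → ∀ L : ℕ, (∀ h ∈ H, h ≤ L) → L * V {0} y ≤ x₀ →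
        |(blocks H L y Z Y : ℝ) - Y * V H y * Real.exp (-(L * V {0} y))| ≤
          ε * (Y * V H y * Real.exp (-(L * V {0} y)))) := by
  refine ⟨?_, ?_, ?_⟩
  · intro y m h1 h2 hy q hq hqy
    rintro (h | h)
    · have := (Nat.prime_dvd_prime_iff_eq hq h1).1 h
      omega
    · have := (Nat.prime_dvd_prime_iff_eq hq h2).1 h
      omega
  · intro y t m hmt h
    exact ⟨Pool.Agent.V7H10.BG.few y t _ (by omega) (by omega) (fun p hp hpz hd => h p hp hpz (Or.inl hd)),
      Pool.Agent.V7H10.BG.few y t _ (by omega) hmt (fun p hp hpz hd => h p hp hpz (Or.inr hd))⟩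
  · intro K x₀ ε hε
    exact Pool.Agent.V7H10.BG.short Pool.Agent.V7H10.S2.sysA Divides Pool.Agent.V7H10.S2.sysA_sys
      Pool.Agent.V7H10.S2.sysA_noTr Pool.Agent.V7H10.S2.QA_iff K x₀ ε hε

end Pool.Agent.Results.MP_2dba45_nt.ExactBlocksH10
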