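import Pool.Agent.V7H21.MP.Sets

set_option autoImplicit false

/-!
# Simultaneous primes `⌊α m ^ 2⌋ + 1`, `⌊β m ^ 2⌋ + 3` for almost all `α, β`

Let `c₁, ..., c_s > 0`. For Lebesgue almost all `(α₁, ..., α_s)` with positive entries and ALL integers
`b₁, ..., b_s`:

* the `s` numbers `⌊αᵢ m ^ cᵢ⌋ + bᵢ` are simultaneously prime for `~ x / (c₁ ⋯ c_s log ^ s x)` of the
  `m ≤ x` (for `s = 2`, `c₁ = c₂ = 2`, `b = (1, 3)`: the numbers `⌊α m ^ 2⌋ + 1` and
  `⌊β m ^ 2⌋ + 3` are both prime for `~ x / (4 log ^ 2 x)` of the `m ≤ x`);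
* with the logarithmic weights the error is `O(x / log ^ K x)` for every `K`, also if in addition one
  or both of the numbers `m ^ 2 + 1`, `m ^ 2 + 3` THEMSELVES are required to be prime: the conditions on
  the `⌊αᵢ m ^ cᵢ⌋ + bᵢ` are independent of these.

Finally let `Al r` be the set of the `m` for which `m ^ 2 + 1` and `m ^ 2 + 3` have at most `r` prime
factors, all of them larger than `m ^ (1 / r)`. For all large `r` it has at least `κ x / log ^ 2 x`
elements up to `x`, and for almost all `α` and all `b` the expected proportion of them, asymptotically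
`1 / (c₁ ⋯ c_s log ^ s x)`, has all `⌊αᵢ m ^ cᵢ⌋ + bᵢ` prime.
-/

namespace Pool.Agent.Results.MP_2dba45_nt.GenericCoefficientsH21

open MeasureTheory Filter Polynomial
open scoped Topology
open Pool.Agent.V7H21.MP (theta value count)
open Pool.Agent.TH977.PW (N Rough Few)
open Pool.Agent.TH464.PW (quad quad_eval quad_deg quad_lead quad_irr)

/-- The `m` for which `m ^ 2 + 1` and `m ^ 2 + 3` have at most `r` prime factors (with multiplicity),
all of them larger than `m ^ (1 / r)`. -/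
def Al (r : ℕ) : Set ℕ :=
  {m | (m ^ 2 + 1).primeFactorsList.length ≤ r ∧ (m ^ 2 + 3).primeFactorsList.length ≤ r ∧
    ∀ p : ℕ, p.Prime → (p ∣ m ^ 2 + 1 ∨ p ∣ m ^ 2 + 3) → (m : ℝ) ^ (1 / (r : ℝ)) < (p : ℝ)}

/-- the two polynomials -/
noncomputable def f (i : Fin 2) : ℤ[X] := quad 1 0 (1 + 2 * (i.val : ℤ))

lemma f_eval (i : Fin 2) (m : ℕ) : (f i).eval (m : ℤ) = ((m ^ 2 + (1 + 2 * i.val) : ℕ) : ℤ) := by
  unfold f
  rw [quad_eval]
  push_cast
  ring

lemma sys : Pool.Agent.W123.RU.Poly.Sys f where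
  irr i := by
    refine quad_irr 1 0 _ one_ne_zero (fun p hp h => ?_) ?_
    · exact hp.one_lt.ne' (by exact_mod_cast Int.eq_one_of_dvd_one (by omega) h.1)
    · rintro ⟨x, hx⟩
      have h1 := mul_self_nonneg x
      have h2 : (0 : ℤ) ≤ (i.val : ℤ) := by omega
      nlinarith
  deg i := by
    unfold f
    rw [quad_deg _ _ _ one_ne_zero]
    norm_num
  lead i := by
    unfold f
    rw [quad_lead _ _ _ one_ne_zero]
    norm_num
  inj i j h := by
    have h1 := congrArg (fun q : ℤ[X] => q.eval ((0 : ℕ) : ℤ)) h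
    simp only [f_eval] at h1
    apply Fin.ext
    have h2 : 0 ^ 2 + (1 + 2 * i.val) = 0 ^ 2 + (1 + 2 * j.val) := by exact_mod_cast h1
    omega
  adm p hp := by
    by_cases h3 : p = 3
    · subst h3
      refine ⟨1, fun i hi => ?_⟩
      rw [f_eval, Int.natCast_dvd_natCast] at hi
      fin_cases i <;> revert hi <;> norm_num
    · refine ⟨0, fun i hi => ?_⟩
      rw [f_eval, Int.natCast_dvd_natCast] at hi
      fin_cases i
      · have h1 : p ∣ 1 := by simpa using hi
        exact hp.one_lt.ne' (Nat.dvd_one.1 h1)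
      · have h1 : p ∣ 3 := by simpa using hi
        exact h3 ((Nat.prime_dvd_prime_iff_eq hp Nat.prime_three).1 h1)

lemma mem_al (r m : ℕ) (h1 : Rough f r m) (h2 : Few f r m) : m ∈ Al r := by
  have g0 := h2 0
  have g1 := h2 1
  rw [f_eval, Int.natAbs_natCast] at g0 g1
  refine ⟨by simpa using g0, by simpa using g1, ?_⟩
  rintro p hp (hd | hd)
  · refine h1 0 p hp ?_
    rw [f_eval, Int.natCast_dvd_natCast]
    simpa using hd
  · refine h1 1 p hp ?_
    rw [f_eval, Int.natCast_dvd_natCast]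
    simpa using hd

/-- the almost prime pairs -/
lemma al_count : ∃ r₀ : ℕ, ∀ r : ℕ, r₀ ≤ r → ∃ κ : ℝ, 0 < κ ∧
    ∀ᶠ x : ℕ in atTop, κ * x / Real.log x ^ 2 ≤ count (Al r) x := by
  obtain ⟨r1, -, h1⟩ := Pool.Agent.TH977.PW.final f sys (fun r => {m | Rough f r m}) (fun r => Al r) 2
    (by rw [Fintype.card_fin]) (fun r m _ hm => hm) (fun r m _ h1 h2 => mem_al r m h1 h2) 1 one_pos le_rfl
  refine ⟨r1, fun r hr => ?_⟩
  obtain ⟨⟨κ, hκ, h2⟩, -⟩ := h1 r hr
  refine ⟨κ / 4, by positivity, Pool.Agent.V7H21.MP.dyadic _ hκ ?_⟩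
  filter_upwards [h2] with X hX
  have h3 := hX X (by rw [Real.rpow_one]) le_rfl
  rwa [← two_mul] at h3

/-- the weights -/
noncomputable def wt (J : Finset ℕ) (m : ℕ) : ℝ := if m = 0 then 0 else ∏ j ∈ J, theta (m ^ 2 + j)

lemma wt_le (J : Finset ℕ) (hJ : J ⊆ {1, 3}) (m : ℕ) : |wt J m| ≤ (1 + Real.log m) ^ 6 := by
  unfold wt
  split_ifs with h
  · rw [h]
    simp
  · have hm : 0 < m := by omega
    have hl := Real.log_natCast_nonneg m
    have h0 : 0 ≤ ∏ j ∈ J, theta (m ^ 2 + j) :=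
      Finset.prod_nonneg fun j _ => Pool.Agent.V7H21.MP.theta_nonneg _
    rw [abs_of_nonneg h0]
    have hcard : J.card ≤ 2 := (Finset.card_le_card hJ).trans (by decide)
    calc ∏ j ∈ J, theta (m ^ 2 + j) ≤ ∏ _j ∈ J, (1 + Real.log m) ^ 3 := by
          refine Finset.prod_le_prod (fun j _ => Pool.Agent.V7H21.MP.theta_nonneg _) fun j hj => ?_
          have h3 := hJ hj
          simp only [Finset.mem_insert, Finset.mem_singleton] at h3
          rcases Nat.lt_or_ge m 2 with hm2 | hm2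
          · have hm1 : m = 1 := by omega
            subst hm1
            have h4 : theta (1 ^ 2 + j) ≤ 1 := by
              have h6 := Real.log_two_lt_d9
              rcases h3 with rfl | rfl
              · have h5 := Pool.Agent.V7H21.MP.theta_le (1 ^ 2 + 1)
                norm_num at h5 ⊢
                linarith
              · have h5 : theta (1 ^ 2 + 3) = 0 := if_neg (by norm_num)
                rw [h5]
                norm_num
            simpa using h4
          · refine Pool.Agent.V7H21.MP.theta_quad ?_ hm2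
            rcases h3 with rfl | rfl <;> nlinarith
      _ = ((1 + Real.log m) ^ 3) ^ J.card := by rw [Finset.prod_const]
      _ ≤ ((1 + Real.log m) ^ 3) ^ 2 := by
          apply pow_le_pow_right₀ _ hcard
          apply one_le_pow₀
          linarith
      _ = _ := by ring

lemma count_univ (x : ℕ) : count Set.univ x = x := by
  unfold count
  simp

/-- **Simultaneous primes for almost all coefficients.** -/
theorem result (s : ℕ) (c : Fin s → ℝ) (hc : ∀ i, 0 < c i) :
    (∀ᵐ α : Fin s → ℝ, (∀ i, 0 < α i) → ∀ b : Fin s → ℤ,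
      Tendsto (fun x : ℕ => (count {m | ∀ i, (value (α i) (c i) (b i) m).Prime} x : ℝ) *
        (Real.log x) ^ s / x) atTop (𝓝 (1 / ∏ i, c i)) ∧
      ∀ J ⊆ ({1, 3} : Finset ℕ), ∀ K : ℕ, ∃ C : ℝ, ∀ᶠ x : ℕ in atTop,
        |∑ m ∈ Finset.Icc 1 x, (∏ j ∈ J, theta (m ^ 2 + j)) *
            ∏ i, theta (value (α i) (c i) (b i) m) -
          ∑ m ∈ Finset.Icc 1 x, ∏ j ∈ J, theta (m ^ 2 + j)| ≤ C * (x / (Real.log x) ^ K)) ∧
    ∃ r₀ : ℕ, ∀ r : ℕ, r₀ ≤ r →
      (∃ κ : ℝ, 0 < κ ∧ ∀ᶠ x : ℕ in atTop, κ * x / Real.log x ^ 2 ≤ count (Al r) x) ∧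
      ∀ᵐ α : Fin s → ℝ, (∀ i, 0 < α i) → ∀ b : Fin s → ℤ,
        Tendsto (fun x : ℕ => (count {m | m ∈ Al r ∧ ∀ i, (value (α i) (c i) (b i) m).Prime} x : ℝ) *
          (Real.log x) ^ s / count (Al r) x) atTop (𝓝 (1 / ∏ i, c i)) := by
  constructor
  · have h1 := Pool.Agent.V7H21.MP.sets Set.univ 0 (Eventually.of_forall fun x => by
      rw [count_univ, pow_zero, div_one]) c hc
    have h2 : ∀ᵐ α : Fin s → ℝ, ∀ J : Finset ℕ, J ⊆ ({1, 3} : Finset ℕ) → (∀ i, 0 < α i) →
        ∀ (b : Fin s → ℤ) (K : ℕ), ∃ C : ℝ, ∀ᶠ x : ℕ in atTop,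
        |∑ m ∈ Finset.Icc 1 x, wt J m * ∏ i, theta (value (α i) (c i) (b i) m) -
          ∑ m ∈ Finset.Icc 1 x, wt J m| ≤ C * (x / (Real.log x) ^ K) := by
      rw [ae_all_iff]
      intro J
      by_cases hJ : J ⊆ ({1, 3} : Finset ℕ)
      · filter_upwards [Pool.Agent.V7H21.MP.weights (wt J) 6 (wt_le J hJ) c hc] with α hα _
        exact hα
      · exact Eventually.of_forall fun α h => absurd h hJ
    filter_upwards [h1, h2] with α h3 h4 hα b
    refine ⟨?_, fun J hJ K => ?_⟩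
    · have h5 := h3 hα b
      refine h5.congr fun x => ?_
      rw [count_univ]
      congr 3
      · congr 1
        ext m
        simp
    · obtain ⟨C, hC⟩ := h4 J hJ hα b K
      refine ⟨C, ?_⟩
      filter_upwards [hC] with x hx
      have e : ∀ m ∈ Finset.Icc 1 x, wt J m = ∏ j ∈ J, theta (m ^ 2 + j) := by
        intro m hm
        rw [Finset.mem_Icc] at hm
        unfold wt
        rw [if_neg (by omega)]
      have e1 : ∑ m ∈ Finset.Icc 1 x, wt J m * ∏ i, theta (value (α i) (c i) (b i) m) =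
          ∑ m ∈ Finset.Icc 1 x, (∏ j ∈ J, theta (m ^ 2 + j)) *
            ∏ i, theta (value (α i) (c i) (b i) m) :=
        Finset.sum_congr rfl fun m hm => by rw [e m hm]
      rw [e1, Finset.sum_congr rfl e] at hx
      exact hx
  · obtain ⟨r₀, h1⟩ := al_count
    refine ⟨r₀, fun r hr => ?_⟩
    obtain ⟨κ, hκ, h2⟩ := h1 r hr
    exact ⟨⟨κ, hκ, h2⟩, Pool.Agent.V7H21.MP.sets (Al r) 3 (Pool.Agent.V7H21.MP.dense3 _ hκ h2) c hc⟩

end Pool.Agent.Results.MP_2dba45_nt.GenericCoefficientsH21
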