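import Pool.Agent.V7H10.Res
import Pool.Agent.V7H10.Sys2

/-!
# Residues of consecutive `m` for which `m ^ 2 + 1` and `m ^ 2 + 3` are almost primes

`S_z` is the set of the `m` such that neither `m ^ 2 + 1` nor `m ^ 2 + 3` has a prime factor `≤ z`; it contains
every `m` for which `m ^ 2 + 1` and `m ^ 2 + 3` are both prime and larger than `z`. Let `l` be a prime number. For
every `k` and `ε > 0` there are `K` and `z₀` such that for all `z ≥ z₀` and ALL intervals `(Z, Z + Y]` with
`Y ≥ z ^ K`, the patterns of residues modulo `l` of `k + 1` consecutive elements of `S_z`, with arbitrary classes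
among the `c(l)` classes `b` with `l ∤ (b ^ 2 + 1) (b ^ 2 + 3)`, all occur with the same frequency
`c(l) ^ (-k-1)`, up to `ε`.
-/

set_option autoImplicit false

open Finset

namespace Pool.Agent.Results.MP_2dba45_nt.ResiduePatternsH10

/-- Neither `m ^ 2 + 1` nor `m ^ 2 + 3` has a prime factor `≤ z`. -/
def Rough (z m : ℕ) : Prop := ∀ p : ℕ, p.Prime → p ≤ z → ¬ p ∣ m ^ 2 + 1 ∧ ¬ p ∣ m ^ 2 + 3

/-- `n 0 < n 1 < … < n k` are consecutive elements of `S`. -/
def Consecutive (S : ℕ → Prop) (k : ℕ) (n : ℕ → ℕ) : Prop :=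
  (∀ i ≤ k, S (n i)) ∧ ∀ i < k, n i < n (i + 1) ∧ ∀ m, n i < m → m < n (i + 1) → ¬ S m

open Classical in
/-- The number of the elements of `S_z` in `(Z, Z + Y]`. -/
noncomputable def total (z Z Y : ℕ) : ℕ := ((Ioc Z (Z + Y)).filter (Rough z)).card

open Classical in
/-- The number of the elements `g` of `S_z` in `(Z, Z + Y]` such that `g` and the `k` next elements of `S_z` are
congruent to `a 0, a 1, …, a k` modulo `l`. -/
noncomputable def count (z l k : ℕ) (a : ℕ → ℕ) (Z Y : ℕ) : ℕ :=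
  ((Ioc Z (Z + Y)).filter (fun g => ∃ n : ℕ → ℕ, n 0 = g ∧ Consecutive (Rough z) k n ∧
    ∀ i ≤ k, n i % l = a i)).card

/-- `b` is one of the possible residues modulo `l` -/
def Allowed (l b : ℕ) : Prop := b < l ∧ ¬ l ∣ b ^ 2 + 1 ∧ ¬ l ∣ b ^ 2 + 3

open Classical in
/-- The number of the possible residues modulo `l`. -/
noncomputable def classes (l : ℕ) : ℕ := ((range l).filter (Allowed l)).card

open Pool.Agent.V11146.MK Pool.Agent.W123.RU.Poly Pool.Agent.W123.RP Pool.Agent.W123.RU Pool.Agent.H373R2.T7 Pool.Agent.TH464.PO Pool.Agent.V7H10.S2 in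
lemma rough_iff (y n : ℕ) : Rough y n ↔ Sf (Q sysA) y n := by
  constructor
  · intro h p hp hQ
    obtain ⟨h1, h2⟩ := Pool.Agent.H373R2.T7.mem_pz.1 hp
    rcases (QA_iff p n).1 hQ with h3 | h3
    · exact (h p h2 h1).1 h3
    · exact (h p h2 h1).2 h3
  · intro h p hp hpy
    have h1 := h p (Pool.Agent.H373R2.T7.mem_pz.2 ⟨hpy, hp⟩)
    rw [QA_iff] at h1
    exact not_or.1 h1

open Pool.Agent.V11146.MK Pool.Agent.W123.RU.Poly Pool.Agent.W123.RP Pool.Agent.W123.RU Pool.Agent.H373R2.T7 Pool.Agent.TH464.PO Pool.Agent.V7H10.S2 in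
open Classical in
lemma classes_eq (l : ℕ) : (cls (Q sysA) l).card = classes l := by
  unfold cls classes
  congr 1
  apply Finset.filter_congr
  intro b hb
  rw [mem_range] at hb
  unfold Allowed
  rw [QA_iff, not_or]
  tauto

open Classical in
lemma main (l k : ℕ) (hl : l.Prime) (ε : ℝ) (hε : 0 < ε) : ∃ K z₀ : ℕ, ∀ z : ℕ, z₀ ≤ z → ∀ Z Y : ℕ, z ^ K ≤ Y →
    0 < total z Z Y ∧ ∀ a : ℕ → ℕ, (∀ i ≤ k, Allowed l (a i)) →
      |(count z l k a Z Y : ℝ) - total z Z Y / (classes l : ℝ) ^ (k + 1)| ≤ ε * total z Z Y := by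
  obtain ⟨K, y0, h⟩ := Pool.Agent.V7H10.Rs.res_sys Pool.Agent.V7H10.S2.sysA Pool.Agent.V7H10.S2.sysA_sys
    Pool.Agent.V7H10.S2.sysA_noTr l k hl Rough rough_iff ε hε
  refine ⟨K, y0, ?_⟩
  intro z hz Z Y hY
  obtain ⟨h1, h2⟩ := h z hz Z Y hY
  refine ⟨h1, fun a ha => ?_⟩
  have h3 := h2 a (fun i hi => by
    obtain ⟨g1, g2, g3⟩ := ha i hi
    refine ⟨g1, ?_⟩
    rw [Pool.Agent.V7H10.S2.QA_iff, not_or]
    exact ⟨g2, g3⟩)
  rw [classes_eq] at h3
  exact h3

/-- few prime factors -/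
lemma few (z s N : ℕ) (hN : 0 < N) (hNz : N ≤ z ^ s) (h : ∀ p : ℕ, p.Prime → p ≤ z → ¬ p ∣ N) :
    N.primeFactorsList.length ≤ s := by
  by_contra hcon
  rw [not_le] at hcon
  have h1 : ∀ q ∈ N.primeFactorsList, z + 1 ≤ q := by
    intro q hq
    by_contra h2
    exact h q (Nat.prime_of_mem_primeFactorsList hq) (by omega) (Nat.dvd_of_mem_primeFactorsList hq)
  have h2 : (z + 1) ^ N.primeFactorsList.length ≤ N.primeFactorsList.prod := List.pow_card_le_prod _ _ h1
  rw [Nat.prod_primeFactorsList hN.ne'] at h2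
  have h3 : z ^ s < (z + 1) ^ N.primeFactorsList.length := by
    calc z ^ s ≤ (z + 1) ^ s := Nat.pow_le_pow_left (by omega) s
      _ < (z + 1) ^ N.primeFactorsList.length := Nat.pow_lt_pow_right (by
          rcases Nat.eq_zero_or_pos z with h4 | h4
          · exfalso
            subst h4
            rcases Nat.eq_zero_or_pos s with h5 | h5
            · subst h5
              have : N = 1 := by simp at hNz; omega
              rw [this] at hcon
              simp at hcon
            · rw [Nat.zero_pow h5] at hNz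
              omega
          · omega) hcon
  omega

open Classical in
/-- **Residue patterns of consecutive almost prime values.** -/
theorem result :
    -- the `m` with prime values are elements of `S_z`
    (∀ z m : ℕ, (m ^ 2 + 1).Prime → (m ^ 2 + 3).Prime → z < m ^ 2 + 1 → Rough z m) ∧
    -- the elements of `S_z` have almost prime values
    (∀ z s m : ℕ, m ^ 2 + 3 ≤ z ^ s → Rough z m →
      (m ^ 2 + 1).primeFactorsList.length ≤ s ∧ (m ^ 2 + 3).primeFactorsList.length ≤ s) ∧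
    -- all residue patterns modulo a prime are equally frequent, in all intervals
    (∀ (l k : ℕ) (ε : ℝ), l.Prime → 0 < ε → ∃ K z₀ : ℕ, ∀ z : ℕ, z₀ ≤ z → ∀ Z Y : ℕ, z ^ K ≤ Y →
      0 < total z Z Y ∧ ∀ a : ℕ → ℕ, (∀ i ≤ k, Allowed l (a i)) →
        |(count z l k a Z Y : ℝ) - total z Z Y / (classes l : ℝ) ^ (k + 1)| ≤ ε * total z Z Y) ∧
    -- the proportion, among the elements `≡ a 0`, of those whose successor is `≡ a 1`
    (∀ (l : ℕ) (ε : ℝ), l.Prime → 0 < ε → ∃ K z₀ : ℕ, ∀ z : ℕ, z₀ ≤ z → ∀ Z Y : ℕ, z ^ K ≤ Y →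
      ∀ a : ℕ → ℕ, Allowed l (a 0) → Allowed l (a 1) →
        0 < count z l 0 a Z Y ∧ |(count z l 1 a Z Y : ℝ) / count z l 0 a Z Y - 1 / classes l| ≤ ε) := by
  refine ⟨?_, ?_, fun l k ε hl hε => main l k hl ε hε, ?_⟩
  · intro z m h1 h2 hz q hq hqz
    constructor
    · intro h
      have := (Nat.prime_dvd_prime_iff_eq hq h1).1 h
      omega
    · intro h
      have := (Nat.prime_dvd_prime_iff_eq hq h2).1 h
      omega
  · intro z s m hns h
    exact ⟨few z s _ (by omega) (by omega) (fun p hp hpz => (h p hp hpz).1),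
      few z s _ (by omega) hns (fun p hp hpz => (h p hp hpz).2)⟩
  · intro l ε hl hε
    by_cases hA : classes l = 0
    · refine ⟨0, 0, ?_⟩
      intro z _ Z Y _ a ha0 _
      exfalso
      unfold classes at hA
      rw [Finset.card_eq_zero] at hA
      have : a 0 ∈ (∅ : Finset ℕ) := by
        rw [← hA, mem_filter, mem_range]
        exact ⟨ha0.1, ha0⟩
      simp at this
    · obtain ⟨e, he, hr⟩ := Pool.Agent.V7H10.Rs.ratio (classes l) (by omega) ε hε
      obtain ⟨K0, z0, h0⟩ := main l 0 hl e he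
      obtain ⟨K1, z1, h1⟩ := main l 1 hl e he
      refine ⟨K0 + K1, z0 + z1 + 1, ?_⟩
      intro z hz Z Y hY a ha0 ha1
      have hz1 : 1 ≤ z := by omega
      obtain ⟨g1, g2⟩ := h0 z (by omega) Z Y ((Nat.pow_le_pow_right hz1 (by omega)).trans hY)
      obtain ⟨_, g3⟩ := h1 z (by omega) Z Y ((Nat.pow_le_pow_right hz1 (by omega)).trans hY)
      have h3 := g2 a (by
        intro i hi
        have : i = 0 := by omega
        rw [this]
        exact ha0)
      have h4 := g3 a (by
        intro i hi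
        have : i = 0 ∨ i = 1 := by omega
        rcases this with rfl | rfl
        · exact ha0
        · exact ha1)
      obtain ⟨r1, r2⟩ := hr (total z Z Y) (count z l 0 a Z Y) (count z l 1 a Z Y)
        (by exact_mod_cast g1) h3 h4
      exact ⟨by exact_mod_cast r1, r2⟩

end Pool.Agent.Results.MP_2dba45_nt.ResiduePatternsH10
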