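import Pool.Agent.V7H21.MP.MT

set_option autoImplicit false

/-!
# Transference to generic sequences `⌊α m ^ c⌋`: Maynard–Tao, Hardy–Littlewood

The shifts `⌊α m ^ 2⌋ + 1`, `⌊α m ^ 2⌋ + 3` of ONE generic sequence in place of `m ^ 2 + 1`, `m ^ 2 + 3`.

* (Maynard–Tao) Let `c ≥ 1` and `H` be an admissible set, `log |H| ≥ 4 d + 2 log d + 13`. For almost
  all `α > 0` at least `d` of the shifts `⌊α m ^ c⌋ + h`, `h ∈ H`, are primes for at least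
  `x / log ^ D x` of the `m ≤ x`, and of the PRIMES `m ≤ x`.
* (Transference) For EVERY function `g` with `|g n| ≤ (1 + log n) ^ B`, every `c > 0` and almost all
  `α > 0` the sum of `g ⌊α m ^ c⌋` over the integers `m ≤ x`, or over the primes with the weight
  `log m`, is the integral of `g ⌊α t ^ c⌋` over `0 ≤ t ≤ x` up to `O (x / log ^ K x)`.
* (Hardy–Littlewood) If `g ≥ 0` and `c ≥ 1`, then `g` has the mean value `S` if and only if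
  `g ⌊α m ^ c⌋` has the mean value `S` over the integers, and over the primes.
-/

namespace Pool.Agent.Results.MP_2dba45_nt.TransferenceH21

open MeasureTheory Filter
open scoped Topology
open Pool.Agent.V7H21.MP (theta count)

/-- `H` misses a residue class modulo every prime. -/
def Admissible (H : Finset ℕ) : Prop := ∀ p : ℕ, p.Prime → ∃ n : ℕ, ∀ h ∈ H, ¬ p ∣ n + h

/-- The `n` for which at least `d` of the numbers `n + h`, `h ∈ H`, are primes. -/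
def Many (d : ℕ) (H : Finset ℕ) : Set ℕ := {n | d ≤ (H.filter fun h => (n + h).Prime).card}

/-- For almost all `α > 0`: for large `x` at least `x / log ^ D x` of the integers `m ≤ x` and at least
`x / log ^ D x` of the primes `m ≤ x` have `⌊α m ^ c⌋ ∈ E`. -/
def Hits (E : Set ℕ) (c : ℝ) (D : ℕ) : Prop := ∀ᵐ α : ℝ, 0 < α → ∀ᶠ x : ℕ in atTop,
  (x : ℝ) / (Real.log x) ^ D ≤ count {m | ⌊α * (m : ℝ) ^ c⌋₊ ∈ E} x ∧
  (x : ℝ) / (Real.log x) ^ D ≤ count {m | m.Prime ∧ ⌊α * (m : ℝ) ^ c⌋₊ ∈ E} x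

/-- **Transference to generic power sequences.** -/
theorem result :
    (∀ d : ℕ, 1 ≤ d → ∃ D : ℕ, ∀ H : Finset ℕ, Admissible H →
      4 * (d : ℝ) + 2 * Real.log d + 13 ≤ Real.log H.card → ∀ c : ℝ, 1 ≤ c → Hits (Many d H) c D) ∧
    ∀ (g : ℕ → ℝ) (B : ℕ), (∀ n, |g n| ≤ (1 + Real.log n) ^ B) →
      (∀ c : ℝ, 0 < c → ∀ᵐ α : ℝ, 0 < α → ∀ K : ℕ, ∃ C : ℝ, ∀ᶠ x : ℕ in atTop,
        |∑ m ∈ Finset.Icc 1 x, g ⌊α * (m : ℝ) ^ c⌋₊ - ∫ t in (0 : ℝ)..x, g ⌊α * t ^ c⌋₊| ≤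
          C * (x / (Real.log x) ^ K) ∧
        |∑ m ∈ Finset.Icc 1 x, theta m * g ⌊α * (m : ℝ) ^ c⌋₊ - ∫ t in (0 : ℝ)..x, g ⌊α * t ^ c⌋₊| ≤
          C * (x / (Real.log x) ^ K)) ∧
      ((∀ n, 0 ≤ g n) → ∀ c : ℝ, 1 ≤ c → ∀ᵐ α : ℝ, 0 < α → ∀ S : ℝ,
        (Tendsto (fun x : ℕ => (∑ m ∈ Finset.Icc 1 x, g ⌊α * (m : ℝ) ^ c⌋₊) / x) atTop (𝓝 S) ↔
          Tendsto (fun y : ℕ => (∑ n ∈ Finset.range y, g n) / y) atTop (𝓝 S)) ∧
        (Tendsto (fun x : ℕ => (∑ m ∈ Finset.Icc 1 x, theta m * g ⌊α * (m : ℝ) ^ c⌋₊) / x) atTop (𝓝 S) ↔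
          Tendsto (fun y : ℕ => (∑ n ∈ Finset.range y, g n) / y) atTop (𝓝 S))) := by
  refine ⟨fun d hd => ?_, fun g B hg => ⟨fun c hc => ?_, fun h0 c hc => ?_⟩⟩
  · obtain ⟨D, h⟩ := Pool.Agent.V7H21.MP.many_shifts d hd
    exact ⟨D + 3, fun H hH hc c hc1 => Pool.Agent.V7H21.MP.transfer_set _ D (h H hH hc) hc1⟩
  · exact Pool.Agent.V7H21.MP.transfer2 g B hg hc
  · exact Pool.Agent.V7H21.MP.mean_ae (B := B) ⟨h0, fun m => (le_abs_self _).trans (hg m)⟩ hc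

end Pool.Agent.Results.MP_2dba45_nt.TransferenceH21
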